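import Pool.Agent.Helper16.BZ.Stmts

set_option autoImplicit false

/-!
Module GSQ of the project BZ (MP_7a8f48_an): a mean square.
-/

open Finset Filter MeasureTheory Topology
open scoped ComplexConjugate InnerProductSpace

namespace Pool.Agent.Helper16.BZ

open Pool.Agent.Helper16.AZ (T E Op mm Eig PP ST_VDH ST_MSR ST_MRF ST_FPV ST_TLR)
open Pool.Agent.Helper16.MD (MS PB Am RW Rich)
open UnitAddTorus (mFourier)

theorem gsq_split (d : ℕ) (hd : 1 ≤ d) :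
    (1 / (d : ℝ)) ^ 2 = ((d : ℝ) ^ (3 / 2 : ℝ))⁻¹ * ((d : ℝ) ^ (1 / 2 : ℝ))⁻¹ := by
  have h : (0 : ℝ) < d := by exact_mod_cast hd
  rw [← mul_inv, ← Real.rpow_add h, one_div, inv_pow]
  congr 1
  rw [show (3 / 2 : ℝ) + 1 / 2 = (2 : ℕ) by norm_num, Real.rpow_natCast]

theorem gsq_term (N d : ℕ) (hd : 1 ≤ d) :
    ((d : ℝ) ^ (1 / 2 : ℝ))⁻¹ * ((N / d : ℕ) : ℝ) ≤ N * ((d : ℝ) ^ (3 / 2 : ℝ))⁻¹ := by
  have h : (0 : ℝ) < d := by exact_mod_cast hd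
  have h1 : ((N / d : ℕ) : ℝ) ≤ N / d := Nat.cast_div_le
  have h2 : (d : ℝ) ^ (3 / 2 : ℝ) = (d : ℝ) ^ (1 / 2 : ℝ) * d := by
    rw [show (3 / 2 : ℝ) = 1 / 2 + 1 by norm_num, Real.rpow_add h, Real.rpow_one]
  have h3 : (0 : ℝ) < (d : ℝ) ^ (1 / 2 : ℝ) := Real.rpow_pos_of_pos h _
  rw [h2]
  refine (mul_le_mul_of_nonneg_left h1 (by positivity)).trans (le_of_eq ?_)
  field_simp

theorem gsq_exch (N : ℕ) (v : ℕ → ℝ) :
    ∑ m ∈ Icc 1 N, ∑ d ∈ m.divisors, v d = ∑ d ∈ Icc 1 N, v d * ((N / d : ℕ) : ℝ) := by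
  have h1 : ∀ m ∈ Icc 1 N, ∑ d ∈ m.divisors, v d = ∑ d ∈ Icc 1 N, if d ∣ m then v d else 0 := by
    intro m hm
    rw [mem_Icc] at hm
    rw [← sum_filter]
    refine sum_congr ?_ fun _ _ => rfl
    ext d
    rw [Nat.mem_divisors, mem_filter, mem_Icc]
    constructor
    · rintro ⟨h, _⟩
      exact ⟨⟨Nat.pos_of_dvd_of_pos h (by omega), (Nat.le_of_dvd (by omega) h).trans hm.2⟩, h⟩
    · rintro ⟨_, h⟩
      exact ⟨h, by omega⟩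
  rw [sum_congr rfl h1, sum_comm]
  refine sum_congr rfl fun d _ => ?_
  rw [← sum_filter, sum_const, nsmul_eq_mul, mul_comm]
  congr 2
  rw [← Nat.Ioc_filter_dvd_card_eq_div N d]
  rfl

theorem st_GSQ : ST_GSQ := by
  have hsum : Summable (fun n : ℕ => ((n : ℝ) ^ (3 / 2 : ℝ))⁻¹) :=
    Real.summable_nat_rpow_inv.2 (by norm_num)
  set Z := ∑' n : ℕ, ((n : ℝ) ^ (3 / 2 : ℝ))⁻¹ with hZ
  have hnn : ∀ n : ℕ, 0 ≤ ((n : ℝ) ^ (3 / 2 : ℝ))⁻¹ := fun n => by positivity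
  have hZ0 : 0 ≤ Z := tsum_nonneg hnn
  have hle : ∀ s : Finset ℕ, ∑ n ∈ s, ((n : ℝ) ^ (3 / 2 : ℝ))⁻¹ ≤ Z := fun s =>
    hsum.sum_le_tsum s fun n _ => hnn n
  refine ⟨Z ^ 2 + 1, by positivity, fun N => ?_⟩
  have h1 : ∀ m ∈ Icc 1 N, (∑ d ∈ m.divisors, 1 / (d : ℝ)) ^ 2
      ≤ Z * ∑ d ∈ m.divisors, ((d : ℝ) ^ (1 / 2 : ℝ))⁻¹ := by
    intro m _
    have h2 := sum_sq_le_sum_mul_sum_of_sq_le_mul m.divisors
      (r := fun d : ℕ => 1 / (d : ℝ)) (f := fun d : ℕ => ((d : ℝ) ^ (3 / 2 : ℝ))⁻¹)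
      (g := fun d : ℕ => ((d : ℝ) ^ (1 / 2 : ℝ))⁻¹) (fun d _ => hnn d)
      (fun d _ => by positivity) (fun d hd => (gsq_split d (Nat.pos_of_mem_divisors hd)).le)
    exact h2.trans (mul_le_mul_of_nonneg_right (hle _) (sum_nonneg fun d _ => by positivity))
  refine (sum_le_sum h1).trans ?_
  rw [← mul_sum, gsq_exch]
  have h3 : ∑ d ∈ Icc 1 N, ((d : ℝ) ^ (1 / 2 : ℝ))⁻¹ * ((N / d : ℕ) : ℝ) ≤ N * Z := by
    refine (sum_le_sum fun d hd => gsq_term N d (mem_Icc.1 hd).1).trans ?_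
    rw [← mul_sum]
    exact mul_le_mul_of_nonneg_left (hle _) (Nat.cast_nonneg N)
  have h4 : (0 : ℝ) ≤ N := Nat.cast_nonneg N
  nlinarith [mul_le_mul_of_nonneg_left h3 hZ0]

end Pool.Agent.Helper16.BZ
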